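import Mathlib

/-!
# Semilinear equations and one-dimensional solutions
-/

set_option autoImplicit false

open Set Metric InnerProductSpace Laplacian
open scoped ContDiff

namespace Pool.Agent.R525.LR

/-- `ℝ^n`. -/
abbrev E (n : ℕ) := EuclideanSpace ℝ (Fin n)

/-- The nonlinearities: `f ∈ C_0^∞(ℝ)`, `f ≥ 0`. -/
def Admissible (f : ℝ → ℝ) : Prop :=
  ContDiff ℝ ∞ f ∧ HasCompactSupport f ∧ ∀ t, 0 ≤ f t

/-- `V` is a one-dimensional solution: `V'' = f(V)` on `ℝ`. -/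
def IsOneDim (f V : ℝ → ℝ) : Prop :=
  ∃ V' : ℝ → ℝ, (∀ s, HasDerivAt V (V' s) s) ∧ ∀ s, HasDerivAt V' (f (V s)) s

/-- `u` is a classical solution of `Δ u = f(u)` in the open unit ball. -/
def Solves {n : ℕ} (f : ℝ → ℝ) (u : E n → ℝ) : Prop :=
  ContDiffOn ℝ 2 u (ball 0 1) ∧ ∀ x ∈ ball (0 : E n) 1, (Δ u : E n → ℝ) x = f (u x)

/-- `u` is homeomorphic to a one-dimensional solution: `u(x) = V₁(⟨Φ₁(x), a₁⟩)` in the open unit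
ball for a one-dimensional solution `V₁`, a unit vector `a₁` and a homeomorphism `Φ₁` of the closed
unit ball onto itself. -/
def HomeoOneDim {n : ℕ} (f : ℝ → ℝ) (u : E n → ℝ) : Prop :=
  ∃ V₁ : ℝ → ℝ, IsOneDim f V₁ ∧ ∃ a₁ : E n, ‖a₁‖ = 1 ∧
    ∃ Φ₁ : closedBall (0 : E n) 1 ≃ₜ closedBall (0 : E n) 1,
      ∀ x : closedBall (0 : E n) 1, (x : E n) ∈ ball (0 : E n) 1 →
        u x = V₁ (inner ℝ (Φ₁ x : E n) a₁)

/-- `u` is nearly isometric to a one-dimensional solution on the ball of radius `δ`: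
`u(x) = V₂(⟨Φ₂(x), a₂⟩)` there for a one-dimensional solution `V₂`, a unit vector `a₂` and an
isometry up to distortion of 1 percent `Φ₂` on that ball. -/
def NearIsomOneDim {n : ℕ} (f : ℝ → ℝ) (u : E n → ℝ) (δ : ℝ) : Prop :=
  ∃ V₂ : ℝ → ℝ, IsOneDim f V₂ ∧ ∃ a₂ : E n, ‖a₂‖ = 1 ∧ ∃ Φ₂ : E n → E n,
    (∀ x ∈ ball (0 : E n) δ, ∀ y ∈ ball (0 : E n) δ,
      99 / 100 * ‖x - y‖ ≤ ‖Φ₂ x - Φ₂ y‖ ∧ ‖Φ₂ x - Φ₂ y‖ ≤ 101 / 100 * ‖x - y‖) ∧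
    ∀ x ∈ ball (0 : E n) δ, u x = V₂ (inner ℝ (Φ₂ x) a₂)

end Pool.Agent.R525.LR
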