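import Mathlib

/-!
# Two polynomials and their positivity certificates
-/

set_option autoImplicit false

namespace Pool.Agent.R525.LR

/-- The even part of the amplitude. -/
def pA (Z q : ℝ) : ℝ := 17 * (q - 4 * Z) + 8 * (8 * Z ^ 2 - 12 * Z * q + q ^ 2)

/-- The odd part of the amplitude, divided by `z`. -/
def pB (Z q : ℝ) : ℝ := 18 - 24 * (4 * Z - 3 * q) + 2 * (8 * Z ^ 2 - 20 * Z * q + 5 * q ^ 2)

/-- The squared modulus of the amplitude. -/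
def pN (Z q : ℝ) : ℝ := pA Z q ^ 2 + Z * pB Z q ^ 2

theorem pN_eq (Z q c : ℝ) (hc : c = 1 - Z - q) : pN Z q =
    289 * q ^ 2 * c ^ 3
    + 1139 * q ^ 3 * c ^ 2
    + 1475 * q ^ 4 * c
    + 625 * q ^ 5
    + 324 * Z * c ^ 4
    + 1576 * Z * q * c ^ 3
    + 4843 * Z * q ^ 2 * c ^ 2
    + 6702 * Z * q ^ 3 * c
    + 3275 * Z * q ^ 4
    + 2464 * Z ^ 2 * c ^ 3
    + 8200 * Z ^ 2 * q * c ^ 2
    + 14819 * Z ^ 2 * q ^ 2 * c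
    + 8459 * Z ^ 2 * q ^ 3
    + 6536 * Z ^ 3 * c ^ 2
    + 11544 * Z ^ 3 * q * c
    + 10969 * Z ^ 3 * q ^ 2
    + 8000 * Z ^ 4 * c
    + 4664 * Z ^ 4 * q
    + 3860 * Z ^ 5 := by
  subst hc
  unfold pN pA pB
  ring

theorem pN_pos {Z q : ℝ} (hZ : 0 ≤ Z) (hq : 0 ≤ q) (h1 : Z + q ≤ 1) (h0 : Z ≠ 0 ∨ q ≠ 0) :
    0 < pN Z q := by
  obtain ⟨c, hc⟩ : ∃ c, c = 1 - Z - q := ⟨_, rfl⟩
  have hc0 : 0 ≤ c := by linarith
  rw [pN_eq Z q c hc]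
  rcases h0 with h | h
  · have hZ' : 0 < Z := lt_of_le_of_ne hZ (Ne.symm h)
    positivity
  · have hq' : 0 < q := lt_of_le_of_ne hq (Ne.symm h)
    positivity

/-- The derivative polynomial. -/
def pD (a b s : ℝ) : ℝ :=
  pN (a * (1 - s)) (s + b * (1 - s)) +
  s * (2 * pA (a * (1 - s)) (s + b * (1 - s)) *
      (17 * ((1 - b) - 4 * (-a)) + 8 * (16 * (a * (1 - s)) * (-a)
        - 12 * ((-a) * (s + b * (1 - s)) + (a * (1 - s)) * (1 - b))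
        + 2 * (s + b * (1 - s)) * (1 - b)))
    + (-a) * pB (a * (1 - s)) (s + b * (1 - s)) ^ 2
    + (a * (1 - s)) * (2 * pB (a * (1 - s)) (s + b * (1 - s)) *
      (-24 * (4 * (-a) - 3 * (1 - b)) + 2 * (16 * (a * (1 - s)) * (-a)
        - 20 * ((-a) * (s + b * (1 - s)) + (a * (1 - s)) * (1 - b))
        + 10 * (s + b * (1 - s)) * (1 - b)))))

theorem pD_eq (a b s c t : ℝ) (hc : c = 1 - a - b) (ht : t = 1 - s) : pD a b s =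
    c ^ 5 * (867 * s ^ 2 * t ^ 3 + 3689 * s ^ 3 * t ^ 2 + 5097 * s ^ 4 * t + 2275 * s ^ 5)
    + b * c ^ 4 * (1156 * s * t ^ 4 + 9673 * s ^ 2 * t ^ 3 + 25283 * s ^ 3 * t ^ 2 + 26491 * s ^ 4 * t + 9725 * s ^ 5)
    + b ^ 2 * c ^ 3 * (289 * t ^ 5 + 6545 * s * t ^ 4 + 31939 * s ^ 2 * t ^ 3 + 61549 * s ^ 3 * t ^ 2 + 52016 * s ^ 4 * t + 16150 * s ^ 5)
    + b ^ 3 * c ^ 2 * (1139 * t ^ 5 + 12939 * s * t ^ 4 + 44833 * s ^ 2 * t ^ 3 + 68255 * s ^ 3 * t ^ 2 + 48072 * s ^ 4 * t + 12850 * s ^ 5)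
    + b ^ 4 * c * (1475 * t ^ 5 + 10675 * s * t ^ 4 + 27950 * s ^ 2 * t ^ 3 + 34550 * s ^ 3 * t ^ 2 + 20575 * s ^ 4 * t + 4775 * s ^ 5)
    + b ^ 5 * (625 * t ^ 5 + 3125 * s * t ^ 4 + 6250 * s ^ 2 * t ^ 3 + 6250 * s ^ 3 * t ^ 2 + 3125 * s ^ 4 * t + 625 * s ^ 5)
    + a * c ^ 4 * (324 * t ^ 5 + 1532 * s * t ^ 4 + 9959 * s ^ 2 * t ^ 3 + 24213 * s ^ 3 * t ^ 2 + 25637 * s ^ 4 * t + 9575 * s ^ 5)
    + a * b * c ^ 3 * (1576 * t ^ 5 + 15800 * s * t ^ 4 + 64252 * s ^ 2 * t ^ 3 + 119348 * s ^ 3 * t ^ 2 + 101020 * s ^ 4 * t + 31700 * s ^ 5)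
    + a * b ^ 2 * c ^ 2 * (4843 * t ^ 5 + 42203 * s * t ^ 4 + 134881 * s ^ 2 * t ^ 3 + 200175 * s ^ 3 * t ^ 2 + 140304 * s ^ 4 * t + 37650 * s ^ 5)
    + a * b ^ 3 * c * (6702 * t ^ 5 + 44702 * s * t ^ 4 + 112394 * s ^ 2 * t ^ 3 + 135990 * s ^ 3 * t ^ 2 + 80096 * s ^ 4 * t + 18500 * s ^ 5)
    + a * b ^ 4 * (3275 * t ^ 5 + 16075 * s * t ^ 4 + 31550 * s ^ 2 * t ^ 3 + 30950 * s ^ 3 * t ^ 2 + 15175 * s ^ 4 * t + 2975 * s ^ 5)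
    + a ^ 2 * c ^ 3 * (2464 * t ^ 5 + 7232 * s * t ^ 4 + 35278 * s ^ 2 * t ^ 3 + 53546 * s ^ 3 * t ^ 2 + 45786 * s ^ 4 * t + 15550 * s ^ 5)
    + a ^ 2 * b * c ^ 2 * (8200 * t ^ 5 + 54048 * s * t ^ 4 + 134894 * s ^ 2 * t ^ 3 + 179034 * s ^ 3 * t ^ 2 + 126738 * s ^ 4 * t + 36750 * s ^ 5)
    + a ^ 2 * b ^ 2 * c * (14819 * t ^ 5 + 76147 * s * t ^ 4 + 161321 * s ^ 2 * t ^ 3 + 180327 * s ^ 3 * t ^ 2 + 107184 * s ^ 4 * t + 26850 * s ^ 5)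
    + a ^ 2 * b ^ 3 * (8459 * t ^ 5 + 34659 * s * t ^ 4 + 58873 * s ^ 2 * t ^ 3 + 53255 * s ^ 3 * t ^ 2 + 26232 * s ^ 4 * t + 5650 * s ^ 5)
    + a ^ 3 * c ^ 2 * (6536 * t ^ 5 + 6808 * s * t ^ 4 + 57374 * s ^ 2 * t ^ 3 + 50138 * s ^ 3 * t ^ 2 + 34506 * s ^ 4 * t + 11950 * s ^ 5)
    + a ^ 3 * b * c * (11544 * t ^ 5 + 68520 * s * t ^ 4 + 114828 * s ^ 2 * t ^ 3 + 96932 * s ^ 3 * t ^ 2 + 56380 * s ^ 4 * t + 17300 * s ^ 5)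
    + a ^ 3 * b ^ 2 * (10969 * t ^ 5 + 39785 * s * t ^ 4 + 54859 * s ^ 2 * t ^ 3 + 39589 * s ^ 3 * t ^ 2 + 18896 * s ^ 4 * t + 5350 * s ^ 5)
    + a ^ 4 * c * (8000 * t ^ 6 + 416 * s * t ^ 5 + 37855 * s ^ 2 * t ^ 4 + 63484 * s ^ 3 * t ^ 3 + 26762 * s ^ 4 * t ^ 2 + 12892 * s ^ 5 * t + 4175 * s ^ 6)
    + a ^ 4 * b * (4664 * t ^ 5 + 29884 * s * t ^ 4 + 35537 * s ^ 2 * t ^ 3 + 11963 * s ^ 3 * t ^ 2 + 4171 * s ^ 4 * t + 2525 * s ^ 5)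
    + a ^ 5 * (3860 * t ^ 10 + 9328 * s * t ^ 9 + 2991 * s ^ 2 * t ^ 8 + 11064 * s ^ 3 * t ^ 7 + 66192 * s ^ 4 * t ^ 6 + 103560 * s ^ 5 * t ^ 5 + 67518 * s ^ 6 * t ^ 4 + 18216 * s ^ 7 * t ^ 3 + 2964 * s ^ 8 * t ^ 2 + 1832 * s ^ 9 * t + 475 * s ^ 10) := by
  subst hc
  subst ht
  unfold pD pN pA pB
  ring

theorem pD_pos {a b s : ℝ} (ha : 0 ≤ a) (hb : 0 ≤ b) (hab : a + b ≤ 1) (hs : 0 < s)
    (hs1 : s < 1) : 0 < pD a b s := by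
  obtain ⟨c, hc⟩ : ∃ c, c = 1 - a - b := ⟨_, rfl⟩
  obtain ⟨t, ht⟩ : ∃ t, t = 1 - s := ⟨_, rfl⟩
  have hc0 : 0 ≤ c := by linarith
  have ht0 : 0 < t := by linarith
  rw [pD_eq a b s c t hc ht]
  have h3 : 0 < a ∨ 0 < b ∨ 0 < c := by
    by_contra h
    push Not at h
    linarith [h.1, h.2.1, h.2.2]
  rcases h3 with h | h | h
  · positivity
  · positivity
  · positivity

/-- The function whose monotonicity is needed. -/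
def pG (a b s : ℝ) : ℝ := s * pN (a * (1 - s)) (s + b * (1 - s))

theorem hasDerivAt_pG (a b s : ℝ) : HasDerivAt (pG a b) (pD a b s) s := by
  have h1s : HasDerivAt (fun s : ℝ => 1 - s) (-1) s :=
    ((hasDerivAt_const s (1 : ℝ)).sub (hasDerivAt_id s)).congr_deriv (by ring)
  have hZ : HasDerivAt (fun s : ℝ => a * (1 - s)) (-a) s :=
    (h1s.const_mul a).congr_deriv (by ring)
  have hq : HasDerivAt (fun s : ℝ => s + b * (1 - s)) (1 - b) s :=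
    ((hasDerivAt_id s).add (h1s.const_mul b)).congr_deriv (by ring)
  have hA : HasDerivAt (fun s : ℝ => pA (a * (1 - s)) (s + b * (1 - s)))
      (17 * ((1 - b) - 4 * (-a)) + 8 * (16 * (a * (1 - s)) * (-a)
        - 12 * ((-a) * (s + b * (1 - s)) + (a * (1 - s)) * (1 - b))
        + 2 * (s + b * (1 - s)) * (1 - b))) s := by
    have := ((hq.sub (hZ.const_mul 4)).const_mul 17).add
      (((((hZ.mul hZ).const_mul 8).sub ((hZ.mul hq).const_mul 12)).add (hq.mul hq)).const_mul 8)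
    refine (this.congr_deriv (by ring)).congr_of_eventuallyEq (Filter.Eventually.of_forall ?_)
    intro x
    simp only [pA, Pi.add_apply, Pi.sub_apply, Pi.mul_apply]; ring
  have hB : HasDerivAt (fun s : ℝ => pB (a * (1 - s)) (s + b * (1 - s)))
      (-24 * (4 * (-a) - 3 * (1 - b)) + 2 * (16 * (a * (1 - s)) * (-a)
        - 20 * ((-a) * (s + b * (1 - s)) + (a * (1 - s)) * (1 - b))
        + 10 * (s + b * (1 - s)) * (1 - b))) s := by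
    have := (((hasDerivAt_const s (18 : ℝ)).sub
      (((hZ.const_mul 4).sub (hq.const_mul 3)).const_mul 24))).add
      (((((hZ.mul hZ).const_mul 8).sub ((hZ.mul hq).const_mul 20)).add
        ((hq.mul hq).const_mul 5)).const_mul 2)
    refine (this.congr_deriv (by ring)).congr_of_eventuallyEq (Filter.Eventually.of_forall ?_)
    intro x
    simp only [pB, Pi.add_apply, Pi.sub_apply, Pi.mul_apply]; ring
  have hG := (hasDerivAt_id s).mul ((hA.mul hA).add (hZ.mul (hB.mul hB)))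
  refine (hG.congr_deriv ?_).congr_of_eventuallyEq (Filter.Eventually.of_forall ?_)
  · simp only [pD, pN, id, Pi.add_apply, Pi.mul_apply]; ring
  · intro x
    simp only [pG, pN, Pi.add_apply, Pi.mul_apply, id]; ring

theorem pG_strictMono {a b : ℝ} (ha : 0 ≤ a) (hb : 0 ≤ b) (hab : a + b ≤ 1) :
    StrictMonoOn (pG a b) (Set.Icc 0 1) := by
  apply strictMonoOn_of_deriv_pos (convex_Icc 0 1)
  · exact fun s _ => (hasDerivAt_pG a b s).continuousAt.continuousWithinAt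
  · intro s hs
    rw [interior_Icc] at hs
    rw [(hasDerivAt_pG a b s).deriv]
    exact pD_pos ha hb hab hs.1 hs.2

end Pool.Agent.R525.LR
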