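import Pool.Agent.R525.LR.Defs
import Pool.Agent.R525.LR.Poly

/-!
# The harmonic function
-/

set_option autoImplicit false

open Set Metric InnerProductSpace Laplacian
open scoped ContDiff

namespace Pool.Agent.R525.LR

/-- A harmonic polynomial in three variables. -/
def bigU (x y z : ℝ) : ℝ :=
  x * pA (z ^ 2) (x ^ 2 + y ^ 2) + y * (z * pB (z ^ 2) (x ^ 2 + y ^ 2))

/-- The counterexample. -/
noncomputable def uu (p : E 3) : ℝ := bigU (p 0) (p 1) (p 2) / 25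

theorem contDiff_uu : ContDiff ℝ ∞ uu := by
  have h0 : ContDiff ℝ ∞ (fun p : E 3 => p 0) := (EuclideanSpace.proj (𝕜 := ℝ) (0 : Fin 3)).contDiff
  have h1 : ContDiff ℝ ∞ (fun p : E 3 => p 1) := (EuclideanSpace.proj (𝕜 := ℝ) (1 : Fin 3)).contDiff
  have h2 : ContDiff ℝ ∞ (fun p : E 3 => p 2) := (EuclideanSpace.proj (𝕜 := ℝ) (2 : Fin 3)).contDiff
  unfold uu bigU pA pB
  fun_prop

theorem deriv2_poly (g : ℝ → ℝ) (c0 c1 c2 c3 c4 c5 : ℝ)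
    (h : ∀ t, g t = c0 + c1 * t + c2 * t ^ 2 + c3 * t ^ 3 + c4 * t ^ 4 + c5 * t ^ 5) :
    deriv (deriv g) 0 = 2 * c2 := by
  have h1 : ∀ t, HasDerivAt g
      (c1 + 2 * c2 * t + 3 * c3 * t ^ 2 + 4 * c4 * t ^ 3 + 5 * c5 * t ^ 4) t := by
    intro t
    have e : g = fun t => c0 + c1 * t + c2 * t ^ 2 + c3 * t ^ 3 + c4 * t ^ 4 + c5 * t ^ 5 :=
      funext h
    rw [e]
    have := (((((hasDerivAt_const t c0).add ((hasDerivAt_id t).const_mul c1)).add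
      ((hasDerivAt_pow 2 t).const_mul c2)).add ((hasDerivAt_pow 3 t).const_mul c3)).add
      ((hasDerivAt_pow 4 t).const_mul c4)).add ((hasDerivAt_pow 5 t).const_mul c5)
    refine (this.congr_deriv ?_)
    norm_num
    ring
  have h2 : deriv g = fun t =>
      c1 + 2 * c2 * t + 3 * c3 * t ^ 2 + 4 * c4 * t ^ 3 + 5 * c5 * t ^ 4 :=
    funext fun t => (h1 t).deriv
  rw [h2]
  have := (((((hasDerivAt_const (0 : ℝ) c1).add ((hasDerivAt_id 0).const_mul (2 * c2))).add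
      ((hasDerivAt_pow 2 0).const_mul (3 * c3))).add ((hasDerivAt_pow 3 0).const_mul (4 * c4))).add
      ((hasDerivAt_pow 4 0).const_mul (5 * c5)))
  refine Eq.trans this.deriv ?_
  norm_num

theorem laplacian_eq_sum (u : E 3 → ℝ) (hu : ContDiff ℝ ∞ u) (x : E 3) :
    (Δ u : E 3 → ℝ) x = ∑ i : Fin 3,
      deriv (deriv (fun t : ℝ => u (x + t • EuclideanSpace.basisFun (Fin 3) ℝ i))) 0 := by
  rw [laplacian_eq_iteratedFDeriv_orthonormalBasis u (EuclideanSpace.basisFun (Fin 3) ℝ)]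
  apply Finset.sum_congr rfl
  intro i _
  set v := EuclideanSpace.basisFun (Fin 3) ℝ i with hv
  rw [iteratedFDeriv_two_apply]
  have hd : Differentiable ℝ u := hu.differentiable (by simp)
  have hd2 : Differentiable ℝ (fderiv ℝ u) := ((contDiff_infty.1 hu 2).fderiv_right (m := 1) (by norm_num)).differentiable (by simp)
  have hl : ∀ t : ℝ, HasDerivAt (fun t : ℝ => x + t • v) v t := by
    intro t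
    have := ((hasDerivAt_id t).smul_const v).const_add x
    simpa using this
  have h1 : deriv (fun t : ℝ => u (x + t • v)) = fun t => fderiv ℝ u (x + t • v) v := by
    funext t
    exact ((hd (x + t • v)).hasFDerivAt.comp_hasDerivAt t (hl t)).deriv
  rw [h1]
  have h2 : HasDerivAt (fun t : ℝ => fderiv ℝ u (x + t • v) v)
      (fderiv ℝ (fderiv ℝ u) (x + (0 : ℝ) • v) v v) 0 := by
    have h3 := (hd2 (x + (0 : ℝ) • v)).hasFDerivAt.comp_hasDerivAt 0 (hl 0)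
    exact h3.clm_apply (hasDerivAt_const (0 : ℝ) v) |>.congr_deriv (by simp)
  rw [h2.deriv]
  simp

theorem laplacian_uu (p : E 3) : (Δ uu : E 3 → ℝ) p = 0 := by
  rw [laplacian_eq_sum uu contDiff_uu, Fin.sum_univ_three]
  have e0 := deriv2_poly (fun t : ℝ => uu (p + t • EuclideanSpace.basisFun (Fin 3) ℝ 0))
    ((18 * p 1 * p 2 + (-96) * p 1 * (p 2) ^ 3 + 16 * p 1 * (p 2) ^ 5 + 72 * (p 1) ^ 3 * p 2 + (-40) * (p 1) ^ 3 * (p 2) ^ 3 + 10 * (p 1) ^ 5 * p 2 + (-68) * p 0 * (p 2) ^ 2 + 64 * p 0 * (p 2) ^ 4 + 17 * p 0 * (p 1) ^ 2 + (-96) * p 0 * (p 1) ^ 2 * (p 2) ^ 2 + 8 * p 0 * (p 1) ^ 4 + 72 * (p 0) ^ 2 * p 1 * p 2 + (-40) * (p 0) ^ 2 * p 1 * (p 2) ^ 3 + 20 * (p 0) ^ 2 * (p 1) ^ 3 * p 2 + 17 * (p 0) ^ 3 + (-96) * (p 0) ^ 3 * (p 2) ^ 2 + 16 * (p 0) ^ 3 * (p 1) ^ 2 + 10 * (p 0) ^ 4 * p 1 * p 2 + 8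 * (p 0) ^ 5) / 25)
    (((-68) * (p 2) ^ 2 + 64 * (p 2) ^ 4 + 17 * (p 1) ^ 2 + (-96) * (p 1) ^ 2 * (p 2) ^ 2 + 8 * (p 1) ^ 4 + 144 * p 0 * p 1 * p 2 + (-80) * p 0 * p 1 * (p 2) ^ 3 + 40 * p 0 * (p 1) ^ 3 * p 2 + 51 * (p 0) ^ 2 + (-288) * (p 0) ^ 2 * (p 2) ^ 2 + 48 * (p 0) ^ 2 * (p 1) ^ 2 + 40 * (p 0) ^ 3 * p 1 * p 2 + 40 * (p 0) ^ 4) / 25)
    ((72 * p 1 * p 2 + (-40) * p 1 * (p 2) ^ 3 + 20 * (p 1) ^ 3 * p 2 + 51 * p 0 + (-288) * p 0 * (p 2) ^ 2 + 48 * p 0 * (p 1) ^ 2 + 60 * (p 0) ^ 2 * p 1 * p 2 + 80 * (p 0) ^ 3) / 25)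
    ((17 + (-96) * (p 2) ^ 2 + 16 * (p 1) ^ 2 + 40 * p 0 * p 1 * p 2 + 80 * (p 0) ^ 2) / 25)
    ((10 * p 1 * p 2 + 40 * p 0) / 25)
    ((8) / 25)
    (by
      intro t
      simp [uu, bigU, pA, pB]
      ring)
  have e1 := deriv2_poly (fun t : ℝ => uu (p + t • EuclideanSpace.basisFun (Fin 3) ℝ 1))
    ((18 * p 1 * p 2 + (-96) * p 1 * (p 2) ^ 3 + 16 * p 1 * (p 2) ^ 5 + 72 * (p 1) ^ 3 * p 2 + (-40) * (p 1) ^ 3 * (p 2) ^ 3 + 10 * (p 1) ^ 5 * p 2 + (-68) * p 0 * (p 2) ^ 2 + 64 * p 0 * (p 2) ^ 4 + 17 * p 0 * (p 1) ^ 2 + (-96) * p 0 * (p 1) ^ 2 * (p 2) ^ 2 + 8 * p 0 * (p 1) ^ 4 + 72 * (p 0) ^ 2 * p 1 * p 2 + (-40) * (p 0) ^ 2 * p 1 * (p 2) ^ 3 + 20 * (p 0) ^ 2 * (p 1) ^ 3 * p 2 + 17 * (p 0) ^ 3 + (-96) * (p 0) ^ 3 * (p 2) ^ 2 + 16 * (p 0) ^ 3 * (p 1) ^ 2 + 10 * (p 0) ^ 4 * p 1 * p 2 + 8 * (p 0) ^ 5)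 / 25)
    ((18 * p 2 + (-96) * (p 2) ^ 3 + 16 * (p 2) ^ 5 + 216 * (p 1) ^ 2 * p 2 + (-120) * (p 1) ^ 2 * (p 2) ^ 3 + 50 * (p 1) ^ 4 * p 2 + 34 * p 0 * p 1 + (-192) * p 0 * p 1 * (p 2) ^ 2 + 32 * p 0 * (p 1) ^ 3 + 72 * (p 0) ^ 2 * p 2 + (-40) * (p 0) ^ 2 * (p 2) ^ 3 + 60 * (p 0) ^ 2 * (p 1) ^ 2 * p 2 + 32 * (p 0) ^ 3 * p 1 + 10 * (p 0) ^ 4 * p 2) / 25)
    ((216 * p 1 * p 2 + (-120) * p 1 * (p 2) ^ 3 + 100 * (p 1) ^ 3 * p 2 + 17 * p 0 + (-96) * p 0 * (p 2) ^ 2 + 48 * p 0 * (p 1) ^ 2 + 60 * (p 0) ^ 2 * p 1 * p 2 + 16 * (p 0) ^ 3) / 25)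
    ((72 * p 2 + (-40) * (p 2) ^ 3 + 100 * (p 1) ^ 2 * p 2 + 32 * p 0 * p 1 + 20 * (p 0) ^ 2 * p 2) / 25)
    ((50 * p 1 * p 2 + 8 * p 0) / 25)
    ((10 * p 2) / 25)
    (by
      intro t
      simp [uu, bigU, pA, pB]
      ring)
  have e2 := deriv2_poly (fun t : ℝ => uu (p + t • EuclideanSpace.basisFun (Fin 3) ℝ 2))
    ((18 * p 1 * p 2 + (-96) * p 1 * (p 2) ^ 3 + 16 * p 1 * (p 2) ^ 5 + 72 * (p 1) ^ 3 * p 2 + (-40) * (p 1) ^ 3 * (p 2) ^ 3 + 10 * (p 1) ^ 5 * p 2 + (-68) * p 0 * (p 2) ^ 2 + 64 * p 0 * (p 2) ^ 4 + 17 * p 0 * (p 1) ^ 2 + (-96) * p 0 * (p 1) ^ 2 * (p 2) ^ 2 + 8 * p 0 * (p 1) ^ 4 + 72 * (p 0) ^ 2 * p 1 * p 2 + (-40) * (p 0) ^ 2 * p 1 * (p 2) ^ 3 + 20 * (p 0) ^ 2 * (p 1) ^ 3 * p 2 + 17 * (p 0) ^ 3 + (-96) * (p 0) ^ 3 * (p 2) ^ 2 + 16 * (p 0) ^ 3 * (p 1) ^ 2 + 10 * (p 0) ^ 4 * p 1 *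 p 2 + 8 * (p 0) ^ 5) / 25)
    ((18 * p 1 + (-288) * p 1 * (p 2) ^ 2 + 80 * p 1 * (p 2) ^ 4 + 72 * (p 1) ^ 3 + (-120) * (p 1) ^ 3 * (p 2) ^ 2 + 10 * (p 1) ^ 5 + (-136) * p 0 * p 2 + 256 * p 0 * (p 2) ^ 3 + (-192) * p 0 * (p 1) ^ 2 * p 2 + 72 * (p 0) ^ 2 * p 1 + (-120) * (p 0) ^ 2 * p 1 * (p 2) ^ 2 + 20 * (p 0) ^ 2 * (p 1) ^ 3 + (-192) * (p 0) ^ 3 * p 2 + 10 * (p 0) ^ 4 * p 1) / 25)
    (((-288) * p 1 * p 2 + 160 * p 1 * (p 2) ^ 3 + (-120) * (p 1) ^ 3 * p 2 + (-68) * p 0 + 384 * p 0 * (p 2) ^ 2 + (-96) * p 0 * (p 1) ^ 2 + (-120) * (p 0) ^ 2 * p 1 * p 2 + (-96) * (p 0) ^ 3) / 25)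
    (((-96) * p 1 + 160 * p 1 * (p 2) ^ 2 + (-40) * (p 1) ^ 3 + 256 * p 0 * p 2 + (-40) * (p 0) ^ 2 * p 1) / 25)
    ((80 * p 1 * p 2 + 64 * p 0) / 25)
    ((16 * p 1) / 25)
    (by
      intro t
      simp [uu, bigU, pA, pB]
      ring)
  rw [e0, e1, e2]
  ring

theorem solves_uu (f : ℝ → ℝ) (hf : ∀ t ≤ 1, f t = 0)
    (hle : ∀ p ∈ ball (0 : E 3) 1, uu p ≤ 1) : Solves f uu := by
  refine ⟨(contDiff_infty.1 contDiff_uu 2).contDiffOn, fun x hx => ?_⟩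
  rw [laplacian_uu, hf _ (hle x hx)]

end Pool.Agent.R525.LR
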