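import Pool.Agent.R525.LR.HomT

/-!
# The second homeomorphism: reparametrisation of half ellipses
-/

set_option autoImplicit false

open Set Metric Filter Topology

namespace Pool.Agent.R525.LR

/-- The new height. -/
noncomputable def tau (x v w : ℝ) : ℝ := x * cK w (x ^ 2 + v ^ 2) / 25

/-- The scaling factor. -/
noncomputable def lam (x v w : ℝ) : ℝ := √((1 - tau x v w ^ 2) / (1 - x ^ 2))

theorem tau_sq (x v w : ℝ) : 625 * tau x v w ^ 2 = x ^ 2 * pN (w ^ 2) (x ^ 2 + v ^ 2) := by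
  have h : cK w (x ^ 2 + v ^ 2) ^ 2 = pN (w ^ 2) (x ^ 2 + v ^ 2) :=
    Real.sq_sqrt (pN_nonneg' _ _)
  unfold tau
  rw [div_pow, mul_pow, h]
  ring

theorem tau_eq_pG {x v w : ℝ} (hx : x ^ 2 < 1) :
    625 * tau x v w ^ 2 = pG (w ^ 2 / (1 - x ^ 2)) (v ^ 2 / (1 - x ^ 2)) (x ^ 2) := by
  have h1 : (1 - x ^ 2) ≠ 0 := by linarith
  rw [tau_sq, pG, div_mul_cancel₀ _ h1, div_mul_cancel₀ _ h1]

theorem pG_one (a b : ℝ) : pG a b 1 = 625 := by
  unfold pG pN pA pB; ring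

theorem pG_zero (a b : ℝ) : pG a b 0 = 0 := by
  unfold pG; ring

theorem tau_sq_lt {x v w : ℝ} (h : x ^ 2 + v ^ 2 + w ^ 2 ≤ 1) (hx : x ^ 2 < 1) :
    tau x v w ^ 2 < 1 := by
  have h1 : 0 < 1 - x ^ 2 := by linarith
  have ha : 0 ≤ w ^ 2 / (1 - x ^ 2) := by positivity
  have hb : 0 ≤ v ^ 2 / (1 - x ^ 2) := by positivity
  have hab : w ^ 2 / (1 - x ^ 2) + v ^ 2 / (1 - x ^ 2) ≤ 1 := by
    rw [← add_div, div_le_one h1]; linarith
  have h2 := pG_strictMono ha hb hab (show x ^ 2 ∈ Icc (0 : ℝ) 1 from ⟨sq_nonneg x, hx.le⟩)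
    (show (1 : ℝ) ∈ Icc (0 : ℝ) 1 from ⟨zero_le_one, le_rfl⟩) hx
  rw [pG_one, ← tau_eq_pG hx] at h2
  linarith

theorem tau_pole {x v w : ℝ} (h : x ^ 2 + v ^ 2 + w ^ 2 ≤ 1) (hx : ¬ x ^ 2 < 1) :
    x ^ 2 = 1 ∧ v = 0 ∧ w = 0 ∧ tau x v w = x := by
  have hx1 : x ^ 2 = 1 := by nlinarith [sq_nonneg v, sq_nonneg w]
  have hv : v = 0 := by
    have : v ^ 2 = 0 := by nlinarith [sq_nonneg v, sq_nonneg w]
    exact pow_eq_zero_iff (two_ne_zero) |>.1 this
  have hw : w = 0 := by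
    have : w ^ 2 = 0 := by nlinarith [sq_nonneg v, sq_nonneg w]
    exact pow_eq_zero_iff (two_ne_zero) |>.1 this
  refine ⟨hx1, hv, hw, ?_⟩
  have h2 : cK w (x ^ 2 + v ^ 2) = 25 := by
    unfold cK
    rw [hv, hw, hx1]
    have : pN ((0 : ℝ) ^ 2) (1 + 0 ^ 2) = 25 ^ 2 := by unfold pN pA pB; norm_num
    rw [this, Real.sqrt_sq (by norm_num)]
  unfold tau
  rw [h2]; ring

theorem tau_sq_le {x v w : ℝ} (h : x ^ 2 + v ^ 2 + w ^ 2 ≤ 1) : tau x v w ^ 2 ≤ 1 := by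
  by_cases hx : x ^ 2 < 1
  · exact (tau_sq_lt h hx).le
  · obtain ⟨h1, -, -, h2⟩ := tau_pole h hx
    rw [h2, h1]

theorem lam_sq {x v w : ℝ} (h : x ^ 2 + v ^ 2 + w ^ 2 ≤ 1) (hx : x ^ 2 < 1) :
    lam x v w ^ 2 = (1 - tau x v w ^ 2) / (1 - x ^ 2) := by
  have h1 := tau_sq_lt h hx
  apply Real.sq_sqrt
  apply div_nonneg <;> linarith

theorem lam_bound {x v w : ℝ} (h : x ^ 2 + v ^ 2 + w ^ 2 ≤ 1) :
    (v * lam x v w) ^ 2 + (w * lam x v w) ^ 2 ≤ 1 - tau x v w ^ 2 := by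
  by_cases hx : x ^ 2 < 1
  · have h1 := tau_sq_lt h hx
    have h2 := lam_sq h hx
    rw [mul_pow, mul_pow, h2, ← add_mul, ← mul_div_assoc, div_le_iff₀ (by linarith)]
    nlinarith
  · obtain ⟨h1, hv, hw, h2⟩ := tau_pole h hx
    rw [h2, h1, hv, hw]; norm_num

/-- The second map. -/
noncomputable def Sf (p : E 3) : E 3 :=
  mk3 (tau (p 0) (p 1) (p 2)) (p 1 * lam (p 0) (p 1) (p 2)) (p 2 * lam (p 0) (p 1) (p 2))

theorem Sf_mem {p : E 3} (hp : p ∈ closedBall (0 : E 3) 1) : Sf p ∈ closedBall (0 : E 3) 1 := by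
  rw [mem_B] at hp ⊢
  have := lam_bound hp
  simp only [Sf, mk3_0, mk3_1, mk3_2]
  linarith

theorem cont_tau : Continuous (fun r : ℝ × ℝ × ℝ => tau r.1 r.2.1 r.2.2) := by
  have h1 : Continuous (fun r : ℝ × ℝ × ℝ => cK r.2.2 (r.1 ^ 2 + r.2.1 ^ 2)) :=
    continuous_cK.comp (f := fun r : ℝ × ℝ × ℝ => (r.2.2, r.1 ^ 2 + r.2.1 ^ 2)) (by fun_prop)
  unfold tau
  exact (continuous_fst.mul h1).div_const 25

theorem continuous_Sf : Continuous (fun p : closedBall (0 : E 3) 1 => Sf p) := by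
  rw [continuous_iff_continuousAt]
  intro p
  have c0 := continuous_coord 0
  have c1 := continuous_coord 1
  have c2 := continuous_coord 2
  have ct : Continuous (fun p : closedBall (0 : E 3) 1 =>
      tau ((p : E 3) 0) ((p : E 3) 1) ((p : E 3) 2)) :=
    cont_tau.comp (c0.prodMk (c1.prodMk c2))
  have hp := (mem_B _).1 p.2
  by_cases hx : ((p : E 3) 0) ^ 2 < 1
  · have hl : ContinuousAt (fun p : closedBall (0 : E 3) 1 =>
        lam ((p : E 3) 0) ((p : E 3) 1) ((p : E 3) 2)) p := by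
      unfold lam
      apply ContinuousAt.comp Real.continuous_sqrt.continuousAt
      apply ContinuousAt.div
      · exact (continuous_const.sub (ct.pow 2)).continuousAt
      · exact (continuous_const.sub (c0.pow 2)).continuousAt
      · linarith
    apply continuousAt_mk3
    · exact ct.continuousAt
    · exact c1.continuousAt.mul hl
    · exact c2.continuousAt.mul hl
  · obtain ⟨h1, hv, hw, ht⟩ := tau_pole hp hx
    have hb : Tendsto (fun r : closedBall (0 : E 3) 1 =>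
        √(1 - tau ((r : E 3) 0) ((r : E 3) 1) ((r : E 3) 2) ^ 2)) (𝓝 p) (𝓝 0) := by
      have h3 : Continuous (fun r : closedBall (0 : E 3) 1 =>
          √(1 - tau ((r : E 3) 0) ((r : E 3) 1) ((r : E 3) 2) ^ 2)) :=
        (continuous_const.sub (ct.pow 2)).sqrt
      have h4 := h3.tendsto p
      simpa [ht, h1] using h4
    have hS1 : Sf p 1 = 0 := by simp only [Sf, mk3_1, hv, zero_mul]
    have hS2 : Sf p 2 = 0 := by simp only [Sf, mk3_2, hw, zero_mul]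
    have e1 : Tendsto (fun r : closedBall (0 : E 3) 1 => Sf r 1) (𝓝 p) (𝓝 0) := by
      refine squeeze_zero_norm (fun r => ?_) hb
      rw [Real.norm_eq_abs]
      apply Real.abs_le_sqrt
      have h4 := lam_bound ((mem_B _).1 r.2)
      simp only [Sf, mk3_1]
      nlinarith [sq_nonneg ((r : E 3) 2 * lam ((r : E 3) 0) ((r : E 3) 1) ((r : E 3) 2))]
    have e2 : Tendsto (fun r : closedBall (0 : E 3) 1 => Sf r 2) (𝓝 p) (𝓝 0) := by
      refine squeeze_zero_norm (fun r => ?_) hb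
      rw [Real.norm_eq_abs]
      apply Real.abs_le_sqrt
      have h4 := lam_bound ((mem_B _).1 r.2)
      simp only [Sf, mk3_2]
      nlinarith [sq_nonneg ((r : E 3) 1 * lam ((r : E 3) 0) ((r : E 3) 1) ((r : E 3) 2))]
    apply continuousAt_mk3
    · exact ct.continuousAt
    · change Tendsto (fun r : closedBall (0 : E 3) 1 => Sf r 1) (𝓝 p) (𝓝 (Sf p 1))
      rw [hS1]; exact e1
    · change Tendsto (fun r : closedBall (0 : E 3) 1 => Sf r 2) (𝓝 p) (𝓝 (Sf p 2))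
      rw [hS2]; exact e2

theorem S_inj {x v w x' v' w' : ℝ} (h : x ^ 2 + v ^ 2 + w ^ 2 ≤ 1)
    (h' : x' ^ 2 + v' ^ 2 + w' ^ 2 ≤ 1) (ht : tau x v w = tau x' v' w')
    (hv : v * lam x v w = v' * lam x' v' w') (hw : w * lam x v w = w' * lam x' v' w') :
    x = x' ∧ v = v' ∧ w = w' := by
  by_cases hx : x ^ 2 < 1
  · have h1 := tau_sq_lt h hx
    have hx' : x' ^ 2 < 1 := by
      by_contra hc
      obtain ⟨h2, -, -, h3⟩ := tau_pole h' hc
      rw [ht, h3, h2] at h1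
      exact lt_irrefl _ h1
    have hD : 0 < 1 - tau x v w ^ 2 := by linarith
    have hl := lam_sq h hx
    have hl' := lam_sq h' hx'
    rw [← ht] at hl'
    have p1 : 0 < 1 - x ^ 2 := by linarith
    have p2 : 0 < 1 - x' ^ 2 := by linarith
    have hb : v ^ 2 / (1 - x ^ 2) = v' ^ 2 / (1 - x' ^ 2) := by
      have e : (v * lam x v w) ^ 2 = (v' * lam x' v' w') ^ 2 := by rw [hv]
      rw [mul_pow, mul_pow, hl, hl'] at e
      have e2 : (v ^ 2 / (1 - x ^ 2)) * (1 - tau x v w ^ 2) =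
          (v' ^ 2 / (1 - x' ^ 2)) * (1 - tau x v w ^ 2) := by
        rw [div_mul_eq_mul_div, div_mul_eq_mul_div, mul_div_assoc, mul_div_assoc]; exact e
      exact mul_right_cancel₀ hD.ne' e2
    have ha : w ^ 2 / (1 - x ^ 2) = w' ^ 2 / (1 - x' ^ 2) := by
      have e : (w * lam x v w) ^ 2 = (w' * lam x' v' w') ^ 2 := by rw [hw]
      rw [mul_pow, mul_pow, hl, hl'] at e
      have e2 : (w ^ 2 / (1 - x ^ 2)) * (1 - tau x v w ^ 2) =
          (w' ^ 2 / (1 - x' ^ 2)) * (1 - tau x v w ^ 2) := by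
        rw [div_mul_eq_mul_div, div_mul_eq_mul_div, mul_div_assoc, mul_div_assoc]; exact e
      exact mul_right_cancel₀ hD.ne' e2
    have ha0 : 0 ≤ w ^ 2 / (1 - x ^ 2) := by positivity
    have hb0 : 0 ≤ v ^ 2 / (1 - x ^ 2) := by positivity
    have hab : w ^ 2 / (1 - x ^ 2) + v ^ 2 / (1 - x ^ 2) ≤ 1 := by
      rw [← add_div, div_le_one p1]; linarith
    have hG : pG (w ^ 2 / (1 - x ^ 2)) (v ^ 2 / (1 - x ^ 2)) (x ^ 2) =
        pG (w ^ 2 / (1 - x ^ 2)) (v ^ 2 / (1 - x ^ 2)) (x' ^ 2) := by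
      rw [← tau_eq_pG hx, ha, hb, ← tau_eq_pG hx', ht]
    have hxx : x ^ 2 = x' ^ 2 := (pG_strictMono ha0 hb0 hab).injOn
      ⟨sq_nonneg x, hx.le⟩ ⟨sq_nonneg x', hx'.le⟩ hG
    have hll : lam x v w = lam x' v' w' := by
      have e : lam x v w ^ 2 = lam x' v' w' ^ 2 := by rw [hl, hl', hxx]
      exact (pow_left_inj₀ (Real.sqrt_nonneg _) (Real.sqrt_nonneg _) two_ne_zero).1 e
    have hlpos : 0 < lam x v w := Real.sqrt_pos.2 (div_pos hD p1)
    have hvv : v = v' := by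
      rw [← hll] at hv; exact mul_right_cancel₀ hlpos.ne' hv
    have hww : w = w' := by
      rw [← hll] at hw; exact mul_right_cancel₀ hlpos.ne' hw
    refine ⟨?_, hvv, hww⟩
    rcases sq_eq_sq_iff_eq_or_eq_neg.1 hxx with hq | hq
    · exact hq
    · have e1 : x' * cK w (x ^ 2 + v ^ 2) = x * cK w (x ^ 2 + v ^ 2) := by
        have e2 := ht
        unfold tau at e2
        rw [← hxx, ← hvv, ← hww] at e2
        linarith
      have e3 : x * cK w (x ^ 2 + v ^ 2) = 0 := by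
        have : x' = -x := by linarith
        rw [this] at e1; linarith
      rcases mul_eq_zero.1 e3 with e4 | e4
      · linarith
      · have := (cK_eq_zero h e4).1
        linarith
  · obtain ⟨h1, hv0, hw0, h2⟩ := tau_pole h hx
    have hx' : ¬ x' ^ 2 < 1 := by
      intro hc
      have h3 := tau_sq_lt h' hc
      rw [← ht, h2, h1] at h3
      exact lt_irrefl _ h3
    obtain ⟨h1', hv0', hw0', h2'⟩ := tau_pole h' hx'
    rw [h2, h2'] at ht
    exact ⟨ht, by rw [hv0, hv0'], by rw [hw0, hw0']⟩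

theorem continuous_pG (a b : ℝ) : Continuous (pG a b) := by
  unfold pG pN pA pB; fun_prop

theorem S_surj {T V W : ℝ} (h : T ^ 2 + V ^ 2 + W ^ 2 ≤ 1) :
    ∃ x v w : ℝ, x ^ 2 + v ^ 2 + w ^ 2 ≤ 1 ∧ tau x v w = T ∧ v * lam x v w = V ∧
      w * lam x v w = W := by
  by_cases hT : T ^ 2 < 1
  · have p1 : 0 < 1 - T ^ 2 := by linarith
    obtain ⟨a, ha⟩ : ∃ a, a = W ^ 2 / (1 - T ^ 2) := ⟨_, rfl⟩
    obtain ⟨b, hb⟩ : ∃ b, b = V ^ 2 / (1 - T ^ 2) := ⟨_, rfl⟩
    have ha0 : 0 ≤ a := by rw [ha]; positivity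
    have hb0 : 0 ≤ b := by rw [hb]; positivity
    have hab : a + b ≤ 1 := by rw [ha, hb, ← add_div, div_le_one p1]; linarith
    obtain ⟨s, ⟨hs0, hs1⟩, hs⟩ : ∃ s ∈ Icc (0 : ℝ) 1, pG a b s = 625 * T ^ 2 := by
      have := intermediate_value_Icc (zero_le_one (α := ℝ)) (continuous_pG a b).continuousOn
      rw [pG_zero, pG_one] at this
      exact this ⟨by positivity, by linarith⟩
    have hs1' : s < 1 := by
      rcases hs1.lt_or_eq with h1 | h1
      · exact h1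
      · rw [h1, pG_one] at hs; linarith
    have p2 : 0 < 1 - s := by linarith
    obtain ⟨m, hm⟩ : ∃ m, m = √((1 - s) / (1 - T ^ 2)) := ⟨_, rfl⟩
    have hm2 : m ^ 2 = (1 - s) / (1 - T ^ 2) := by
      rw [hm]; exact Real.sq_sqrt (div_pos p2 p1).le
    have hmpos : 0 < m := by rw [hm]; exact Real.sqrt_pos.2 (div_pos p2 p1)
    obtain ⟨x, hx2, hxs⟩ : ∃ x : ℝ, x ^ 2 = s ∧ ((0 ≤ T ∧ 0 ≤ x) ∨ (T ≤ 0 ∧ x ≤ 0)) := by
      rcases le_total 0 T with h1 | h1
      · exact ⟨√s, Real.sq_sqrt hs0, Or.inl ⟨h1, Real.sqrt_nonneg s⟩⟩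
      · exact ⟨-√s, by rw [neg_sq]; exact Real.sq_sqrt hs0,
          Or.inr ⟨h1, by linarith [Real.sqrt_nonneg s]⟩⟩
    have hv2 : (V * m) ^ 2 = b * (1 - s) := by rw [mul_pow, hm2, hb]; ring
    have hw2 : (W * m) ^ 2 = a * (1 - s) := by rw [mul_pow, hm2, ha]; ring
    have hball : x ^ 2 + (V * m) ^ 2 + (W * m) ^ 2 ≤ 1 := by
      rw [hx2, hv2, hw2]; nlinarith
    have htau2 : tau x (V * m) (W * m) ^ 2 = T ^ 2 := by
      have e := tau_sq x (V * m) (W * m)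
      rw [hx2, hv2, hw2] at e
      have e2 : pG a b s = s * pN (a * (1 - s)) (s + b * (1 - s)) := rfl
      rw [e2] at hs
      linarith
    have hk := cK_nonneg (W * m) (x ^ 2 + (V * m) ^ 2)
    have htau : tau x (V * m) (W * m) = T := by
      rcases hxs with ⟨h1, h2⟩ | ⟨h1, h2⟩
      · have h3 : 0 ≤ tau x (V * m) (W * m) := by unfold tau; positivity
        exact (pow_left_inj₀ h3 h1 two_ne_zero).1 htau2
      · have h3 : 0 ≤ - tau x (V * m) (W * m) := by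
          unfold tau
          have : 0 ≤ (-x) * cK (W * m) (x ^ 2 + (V * m) ^ 2) / 25 :=
            div_nonneg (mul_nonneg (by linarith) hk) (by norm_num)
          linarith
        have h4 : (- tau x (V * m) (W * m)) ^ 2 = (-T) ^ 2 := by rw [neg_sq, neg_sq]; exact htau2
        have := (pow_left_inj₀ h3 (by linarith : 0 ≤ -T) two_ne_zero).1 h4
        linarith
    have hlam : m * lam x (V * m) (W * m) = 1 := by
      unfold lam
      rw [htau, hx2, hm, ← Real.sqrt_mul (div_pos p2 p1).le]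
      rw [div_mul_div_comm, mul_comm (1 - s), div_self (by positivity), Real.sqrt_one]
    refine ⟨x, V * m, W * m, hball, htau, ?_, ?_⟩
    · rw [mul_assoc, hlam, mul_one]
    · rw [mul_assoc, hlam, mul_one]
  · obtain ⟨h1, hv, hw, h2⟩ := tau_pole h hT
    refine ⟨T, 0, 0, by rw [h1]; norm_num, ?_, ?_, ?_⟩
    · rw [hv, hw] at h2; exact h2
    · rw [hv, zero_mul]
    · rw [hw, zero_mul]

theorem Sf_bij : Function.Bijective
    (fun p : closedBall (0 : E 3) 1 => (⟨Sf p, Sf_mem p.2⟩ : closedBall (0 : E 3) 1)) := by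
  constructor
  · intro p q hpq
    have h : Sf p = Sf q := congrArg Subtype.val hpq
    have h0 : Sf p 0 = Sf q 0 := by rw [h]
    have h1 : Sf p 1 = Sf q 1 := by rw [h]
    have h2 : Sf p 2 = Sf q 2 := by rw [h]
    obtain ⟨e0, e1, e2⟩ := S_inj ((mem_B _).1 p.2) ((mem_B _).1 q.2) h0 h1 h2
    exact Subtype.ext (ext3 e0 e1 e2)
  · intro q
    obtain ⟨x, v, w, hb, e0, e1, e2⟩ := S_surj ((mem_B _).1 q.2)
    refine ⟨⟨mk3 x v w, (mem_B _).2 hb⟩, Subtype.ext (ext3 e0 e1 e2)⟩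

/-- The second map as a bijection of the closed ball. -/
noncomputable def SEquiv : closedBall (0 : E 3) 1 ≃ closedBall (0 : E 3) 1 :=
  Equiv.ofBijective _ Sf_bij

/-- The homeomorphism of the closed ball. -/
noncomputable def Phi : closedBall (0 : E 3) 1 ≃ₜ closedBall (0 : E 3) 1 :=
  have : CompactSpace (closedBall (0 : E 3) 1) :=
    isCompact_iff_compactSpace.1 (isCompact_closedBall 0 1)
  Continuous.homeoOfEquivCompactToT2 (f := TEquiv.trans SEquiv)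
    ((continuous_Sf.subtype_mk fun p => Sf_mem p.2).comp
      (continuous_Tf.subtype_mk fun p => Tf_mem p.2))

theorem Phi_apply (p : closedBall (0 : E 3) 1) : (Phi p : E 3) = Sf (Tf p) := rfl

theorem Phi_zero (p : closedBall (0 : E 3) 1) : (Phi p : E 3) 0 =
    ((p : E 3) 0 * cA ((p : E 3) 2) ((p : E 3) 0 ^ 2 + (p : E 3) 1 ^ 2) +
      (p : E 3) 1 * cB ((p : E 3) 2) ((p : E 3) 0 ^ 2 + (p : E 3) 1 ^ 2)) / 25 := by
  rw [Phi_apply]
  simp only [Sf, mk3_0, tau]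
  rw [Tf_q p.2]
  have h2 : Tf (p : E 3) 2 = (p : E 3) 2 := rfl
  rw [h2]
  by_cases hk : cK ((p : E 3) 2) ((p : E 3) 0 ^ 2 + (p : E 3) 1 ^ 2) = 0
  · obtain ⟨h0, h1, h3⟩ := cK_eq_zero ((mem_B _).1 p.2) hk
    rw [hk, h0, h1]; ring
  · simp only [Tf, mk3_0]
    field_simp

end Pool.Agent.R525.LR
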