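import Pool.Agent.R525.LR.Defs
import Pool.Agent.R525.LR.Poly

/-!
# The first homeomorphism: a rotation of the horizontal planes
-/

set_option autoImplicit false

open Set Metric Filter Topology

namespace Pool.Agent.R525.LR

theorem mem_B (p : E 3) : p ∈ closedBall (0 : E 3) 1 ↔ p 0 ^ 2 + p 1 ^ 2 + p 2 ^ 2 ≤ 1 := by
  rw [mem_closedBall_zero_iff, ← sq_le_one_iff₀ (norm_nonneg p), EuclideanSpace.norm_sq_eq,
    Fin.sum_univ_three]
  simp only [Real.norm_eq_abs, sq_abs]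

/-- The point with given coordinates. -/
def mk3 (a b c : ℝ) : E 3 := !₂[a, b, c]

@[simp] theorem mk3_0 (a b c : ℝ) : mk3 a b c 0 = a := rfl
@[simp] theorem mk3_1 (a b c : ℝ) : mk3 a b c 1 = b := rfl
@[simp] theorem mk3_2 (a b c : ℝ) : mk3 a b c 2 = c := rfl

theorem ext3 {p q : E 3} (h0 : p 0 = q 0) (h1 : p 1 = q 1) (h2 : p 2 = q 2) : p = q := by
  ext i; fin_cases i <;> assumption

theorem continuousAt_mk3 {X : Type*} [TopologicalSpace X] {f g h : X → ℝ} {x : X}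
    (hf : ContinuousAt f x) (hg : ContinuousAt g x) (hh : ContinuousAt h x) :
    ContinuousAt (fun x => mk3 (f x) (g x) (h x)) x := by
  apply (PiLp.continuous_toLp 2 (fun _ : Fin 3 => ℝ)).continuousAt.comp
    (g := WithLp.toLp 2) (f := fun x => ![f x, g x, h x])
  rw [continuousAt_pi]
  intro i
  fin_cases i
  · exact hf
  · exact hg
  · exact hh

theorem continuous_coord (i : Fin 3) : Continuous (fun p : closedBall (0 : E 3) 1 => (p : E 3) i) :=
  (EuclideanSpace.proj (𝕜 := ℝ) i).continuous.comp continuous_subtype_val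

/-- First component of the amplitude. -/
def cA (z q : ℝ) : ℝ := pA (z ^ 2) q

/-- Second component of the amplitude. -/
def cB (z q : ℝ) : ℝ := z * pB (z ^ 2) q

/-- The modulus of the amplitude. -/
noncomputable def cK (z q : ℝ) : ℝ := √(pN (z ^ 2) q)

theorem pN_nonneg' (z q : ℝ) : 0 ≤ pN (z ^ 2) q := by unfold pN; positivity

theorem cK_sq (z q : ℝ) : cK z q ^ 2 = cA z q ^ 2 + cB z q ^ 2 := by
  unfold cK
  rw [Real.sq_sqrt (pN_nonneg' z q)]
  unfold pN cA cB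
  ring

theorem cK_nonneg (z q : ℝ) : 0 ≤ cK z q := Real.sqrt_nonneg _

theorem continuous_pN : Continuous (fun r : ℝ × ℝ => pN (r.1 ^ 2) r.2) := by
  unfold pN pA pB; fun_prop

theorem continuous_cK : Continuous (fun r : ℝ × ℝ => cK r.1 r.2) :=
  Real.continuous_sqrt.comp continuous_pN

theorem continuous_cA : Continuous (fun r : ℝ × ℝ => cA r.1 r.2) := by
  unfold cA pA; fun_prop

theorem continuous_cB : Continuous (fun r : ℝ × ℝ => cB r.1 r.2) := by
  unfold cB pB; fun_prop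

theorem cK_pos {x y z : ℝ} (h : x ^ 2 + y ^ 2 + z ^ 2 ≤ 1) (h0 : x ≠ 0 ∨ y ≠ 0 ∨ z ≠ 0) :
    0 < cK z (x ^ 2 + y ^ 2) := by
  apply Real.sqrt_pos.2
  apply pN_pos (by positivity) (by positivity) (by linarith)
  rcases h0 with h0 | h0 | h0
  · right; positivity
  · right; positivity
  · left; positivity

theorem cK_eq_zero {x y z : ℝ} (h : x ^ 2 + y ^ 2 + z ^ 2 ≤ 1)
    (h0 : cK z (x ^ 2 + y ^ 2) = 0) : x = 0 ∧ y = 0 ∧ z = 0 := by
  by_contra hne
  have : 0 < cK z (x ^ 2 + y ^ 2) := by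
    apply cK_pos h
    by_contra h1
    push Not at h1
    exact hne h1
  linarith

/-- Rotation of the horizontal planes. -/
noncomputable def Tf (p : E 3) : E 3 :=
  mk3 ((p 0 * cA (p 2) (p 0 ^ 2 + p 1 ^ 2) + p 1 * cB (p 2) (p 0 ^ 2 + p 1 ^ 2)) /
      cK (p 2) (p 0 ^ 2 + p 1 ^ 2))
    ((p 1 * cA (p 2) (p 0 ^ 2 + p 1 ^ 2) - p 0 * cB (p 2) (p 0 ^ 2 + p 1 ^ 2)) /
      cK (p 2) (p 0 ^ 2 + p 1 ^ 2))
    (p 2)

/-- The inverse rotation. -/
noncomputable def Ti (p : E 3) : E 3 :=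
  mk3 ((p 0 * cA (p 2) (p 0 ^ 2 + p 1 ^ 2) - p 1 * cB (p 2) (p 0 ^ 2 + p 1 ^ 2)) /
      cK (p 2) (p 0 ^ 2 + p 1 ^ 2))
    ((p 0 * cB (p 2) (p 0 ^ 2 + p 1 ^ 2) + p 1 * cA (p 2) (p 0 ^ 2 + p 1 ^ 2)) /
      cK (p 2) (p 0 ^ 2 + p 1 ^ 2))
    (p 2)

theorem Tf_q {p : E 3} (hp : p ∈ closedBall (0 : E 3) 1) :
    Tf p 0 ^ 2 + Tf p 1 ^ 2 = p 0 ^ 2 + p 1 ^ 2 := by
  rw [mem_B] at hp
  simp only [Tf, mk3_0, mk3_1]
  set q := p 0 ^ 2 + p 1 ^ 2 with hq
  by_cases hk : cK (p 2) q = 0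
  · obtain ⟨h0, h1, h2⟩ := cK_eq_zero hp hk
    rw [hk]
    simp [hq, h0, h1]
  · have hks := cK_sq (p 2) q
    field_simp
    rw [hks, hq]; ring

theorem Ti_q {p : E 3} (hp : p ∈ closedBall (0 : E 3) 1) :
    Ti p 0 ^ 2 + Ti p 1 ^ 2 = p 0 ^ 2 + p 1 ^ 2 := by
  rw [mem_B] at hp
  simp only [Ti, mk3_0, mk3_1]
  set q := p 0 ^ 2 + p 1 ^ 2 with hq
  by_cases hk : cK (p 2) q = 0
  · obtain ⟨h0, h1, h2⟩ := cK_eq_zero hp hk
    rw [hk]
    simp [hq, h0, h1]
  · have hks := cK_sq (p 2) q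
    field_simp
    rw [hks, hq]; ring

theorem Tf_mem {p : E 3} (hp : p ∈ closedBall (0 : E 3) 1) : Tf p ∈ closedBall (0 : E 3) 1 := by
  have h := Tf_q hp
  rw [mem_B] at hp ⊢
  have h2 : Tf p 2 = p 2 := rfl
  rw [h, h2]; exact hp

theorem Ti_mem {p : E 3} (hp : p ∈ closedBall (0 : E 3) 1) : Ti p ∈ closedBall (0 : E 3) 1 := by
  have h := Ti_q hp
  rw [mem_B] at hp ⊢
  have h2 : Ti p 2 = p 2 := rfl
  rw [h, h2]; exact hp

theorem Ti_Tf {p : E 3} (hp : p ∈ closedBall (0 : E 3) 1) : Ti (Tf p) = p := by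
  have hq1 := Tf_q hp
  have h2 : Tf p 2 = p 2 := rfl
  rw [mem_B] at hp
  by_cases hk : cK (p 2) (p 0 ^ 2 + p 1 ^ 2) = 0
  · obtain ⟨h0, h1, h3⟩ := cK_eq_zero hp hk
    apply ext3
    · simp only [Ti, mk3_0, h2, hq1, hk, div_zero]
      exact h0.symm
    · simp only [Ti, mk3_1, h2, hq1, hk, div_zero]
      exact h1.symm
    · rfl
  · have hks := cK_sq (p 2) (p 0 ^ 2 + p 1 ^ 2)
    apply ext3
    · simp only [Ti, mk3_0, h2, hq1]
      simp only [Tf, mk3_0, mk3_1]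
      field_simp
      rw [hks]; ring
    · simp only [Ti, mk3_1, h2, hq1]
      simp only [Tf, mk3_0, mk3_1]
      field_simp
      rw [hks]; ring
    · rfl

theorem Tf_Ti {p : E 3} (hp : p ∈ closedBall (0 : E 3) 1) : Tf (Ti p) = p := by
  have hq1 := Ti_q hp
  have h2 : Ti p 2 = p 2 := rfl
  rw [mem_B] at hp
  by_cases hk : cK (p 2) (p 0 ^ 2 + p 1 ^ 2) = 0
  · obtain ⟨h0, h1, h3⟩ := cK_eq_zero hp hk
    apply ext3
    · simp only [Tf, mk3_0, h2, hq1, hk, div_zero]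
      exact h0.symm
    · simp only [Tf, mk3_1, h2, hq1, hk, div_zero]
      exact h1.symm
    · rfl
  · have hks := cK_sq (p 2) (p 0 ^ 2 + p 1 ^ 2)
    apply ext3
    · simp only [Tf, mk3_0, h2, hq1]
      simp only [Ti, mk3_0, mk3_1]
      field_simp
      rw [hks]; ring
    · simp only [Tf, mk3_1, h2, hq1]
      simp only [Ti, mk3_0, mk3_1]
      field_simp
      rw [hks]; ring
    · rfl

/-- The rotation as a bijection of the closed ball. -/
noncomputable def TEquiv : closedBall (0 : E 3) 1 ≃ closedBall (0 : E 3) 1 where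
  toFun p := ⟨Tf p, Tf_mem p.2⟩
  invFun p := ⟨Ti p, Ti_mem p.2⟩
  left_inv p := Subtype.ext (Ti_Tf p.2)
  right_inv p := Subtype.ext (Tf_Ti p.2)

theorem continuous_Tf : Continuous (fun p : closedBall (0 : E 3) 1 => Tf p) := by
  rw [continuous_iff_continuousAt]
  intro p
  have c0 := continuous_coord 0
  have c1 := continuous_coord 1
  have c2 := continuous_coord 2
  have cq : Continuous (fun p : closedBall (0 : E 3) 1 =>
      (((p : E 3) 2, (p : E 3) 0 ^ 2 + (p : E 3) 1 ^ 2) : ℝ × ℝ)) :=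
    c2.prodMk ((c0.pow 2).add (c1.pow 2))
  have cK' := continuous_cK.comp cq
  have cA' := continuous_cA.comp cq
  have cB' := continuous_cB.comp cq
  by_cases hk : cK ((p : E 3) 2) ((p : E 3) 0 ^ 2 + (p : E 3) 1 ^ 2) = 0
  · obtain ⟨h0, h1, h2⟩ := cK_eq_zero ((mem_B _).1 p.2) hk
    have hb : Tendsto (fun r : closedBall (0 : E 3) 1 =>
        √((r : E 3) 0 ^ 2 + (r : E 3) 1 ^ 2)) (𝓝 p) (𝓝 0) := by
      have h3 : Continuous (fun r : closedBall (0 : E 3) 1 =>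
        √((r : E 3) 0 ^ 2 + (r : E 3) 1 ^ 2)) :=
        Real.continuous_sqrt.comp ((c0.pow 2).add (c1.pow 2))
      have h4 := h3.tendsto p
      simpa [h0, h1] using h4
    have hT0 : Tf p 0 = 0 := by simp only [Tf, mk3_0, hk, div_zero]
    have hT1 : Tf p 1 = 0 := by simp only [Tf, mk3_1, hk, div_zero]
    have e0 : Tendsto (fun r : closedBall (0 : E 3) 1 => Tf r 0) (𝓝 p) (𝓝 0) := by
      refine squeeze_zero_norm (fun r => ?_) hb
      rw [Real.norm_eq_abs]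
      apply Real.abs_le_sqrt
      have := Tf_q r.2
      nlinarith [sq_nonneg (Tf (r : E 3) 1)]
    have e1 : Tendsto (fun r : closedBall (0 : E 3) 1 => Tf r 1) (𝓝 p) (𝓝 0) := by
      refine squeeze_zero_norm (fun r => ?_) hb
      rw [Real.norm_eq_abs]
      apply Real.abs_le_sqrt
      have := Tf_q r.2
      nlinarith [sq_nonneg (Tf (r : E 3) 0)]
    apply continuousAt_mk3
    · change Tendsto (fun r : closedBall (0 : E 3) 1 => Tf r 0) (𝓝 p) (𝓝 (Tf p 0))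
      rw [hT0]; exact e0
    · change Tendsto (fun r : closedBall (0 : E 3) 1 => Tf r 1) (𝓝 p) (𝓝 (Tf p 1))
      rw [hT1]; exact e1
    · exact c2.continuousAt
  · apply continuousAt_mk3
    · exact ((c0.mul cA').add (c1.mul cB')).continuousAt.div cK'.continuousAt hk
    · exact ((c1.mul cA').sub (c0.mul cB')).continuousAt.div cK'.continuousAt hk
    · exact c2.continuousAt

end Pool.Agent.R525.LR
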