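import Pool.Agent.R525.LR.Harm

/-!
# No nearly isometric representation at a critical point
-/

set_option autoImplicit false

open Set Metric Filter Topology
open scoped ContDiff

namespace Pool.Agent.R525.LR

/-- Four nearly orthogonal vectors do not exist in `ℝ³`. -/
theorem no_four (w : Fin 4 → E 3) (r : ℝ) (hr : 0 < r)
    (hd : ∀ i, 98 / 100 * r ^ 2 ≤ ‖w i‖ ^ 2)
    (ho : ∀ i j, i ≠ j → |(inner ℝ (w i) (w j) : ℝ)| ≤ 4 / 100 * r ^ 2) : False := by
  have hli : LinearIndependent ℝ w := by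
    rw [Fintype.linearIndependent_iff]
    intro g hg
    obtain ⟨m, hm⟩ := Finite.exists_max (fun i => |g i|)
    have hm0 : |g m| = 0 := by
      by_contra hne
      have hpos : 0 < |g m| := lt_of_le_of_ne (abs_nonneg _) (Ne.symm hne)
      have h1 : (inner ℝ (∑ i, g i • w i) (w m) : ℝ) = 0 := by rw [hg, inner_zero_left]
      rw [sum_inner] at h1
      simp only [real_inner_smul_left] at h1
      rw [← Finset.add_sum_erase _ _ (Finset.mem_univ m)] at h1
      rw [real_inner_self_eq_norm_sq] at h1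
      have h2 : |∑ i ∈ Finset.univ.erase m, g i * (inner ℝ (w i) (w m) : ℝ)| ≤
          ∑ i ∈ Finset.univ.erase m, |g m| * (4 / 100 * r ^ 2) := by
        refine (Finset.abs_sum_le_sum_abs _ _).trans (Finset.sum_le_sum fun i hi => ?_)
        rw [abs_mul]
        exact mul_le_mul (hm i) (ho i m (Finset.ne_of_mem_erase hi)) (abs_nonneg _) (abs_nonneg _)
      rw [Finset.sum_const, Finset.card_erase_of_mem (Finset.mem_univ m), Finset.card_univ,
        Fintype.card_fin] at h2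
      have h3 : |g m * ‖w m‖ ^ 2| = |∑ i ∈ Finset.univ.erase m, g i * (inner ℝ (w i) (w m) : ℝ)| := by
        have : g m * ‖w m‖ ^ 2 =
          -(∑ i ∈ Finset.univ.erase m, g i * (inner ℝ (w i) (w m) : ℝ)) := by linarith
        rw [this, abs_neg]
      rw [← h3, abs_mul, abs_of_nonneg (sq_nonneg ‖w m‖)] at h2
      have h4 := hd m
      have h5 : |g m| * (98 / 100 * r ^ 2) ≤ |g m| * ‖w m‖ ^ 2 :=
        mul_le_mul_of_nonneg_left h4 hpos.le
      have h6 : (4 - 1 : ℕ) • (|g m| * (4 / 100 * r ^ 2)) = 3 * (|g m| * (4 / 100 * r ^ 2)) := by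
        norm_num
      rw [h6] at h2
      have h7 : 0 < |g m| * r ^ 2 := by positivity
      nlinarith
    intro i
    have := hm i
    rw [hm0] at this
    exact abs_nonpos_iff.1 this
  have := hli.fintype_card_le_finrank
  simp at this

/-- Axis vectors. -/
noncomputable def ax (i : Fin 3) : E 3 := EuclideanSpace.basisFun (Fin 3) ℝ i

theorem norm_ax (i : Fin 3) : ‖ax i‖ = 1 := (EuclideanSpace.basisFun (Fin 3) ℝ).norm_eq_one i

theorem inner_ax (i j : Fin 3) (h : i ≠ j) : (inner ℝ (ax i) (ax j) : ℝ) = 0 :=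
  (EuclideanSpace.basisFun (Fin 3) ℝ).orthonormal.2 h

theorem norm_ax_sub_sq (r : ℝ) (i j : Fin 3) (h : i ≠ j) : ‖r • ax i - r • ax j‖ ^ 2 = 2 * r ^ 2 := by
  rw [norm_sub_sq_real, real_inner_smul_left, real_inner_smul_right, inner_ax i j h, norm_smul,
    norm_smul, norm_ax, norm_ax]
  simp only [mul_one, mul_zero, sub_zero, Real.norm_eq_abs, sq_abs]
  ring

theorem uu_ax0 (r : ℝ) : uu (r • ax 0) = (17 * r ^ 3 + 8 * r ^ 5) / 25 := by
  simp [uu, bigU, pA, pB, ax]
  ring

theorem uu_ax1 (r : ℝ) : uu (r • ax 1) = 0 := by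
  simp [uu, bigU, pA, pB, ax]

theorem uu_ax2 (r : ℝ) : uu (r • ax 2) = 0 := by
  simp [uu, bigU, pA, pB, ax]

theorem uu_zero : uu 0 = 0 := by
  simp [uu, bigU, pA, pB]

theorem not_near {f : ℝ → ℝ} (h0 : ∀ t ≤ 1, f t = 0)
    (hle : ∀ p ∈ ball (0 : E 3) 1, uu p ≤ 1) (δ : ℝ) (hδ : 0 < δ) : ¬ NearIsomOneDim f uu δ := by
  rintro ⟨V, ⟨V', hV, hV'⟩, a, ha, Φ, hΦ, hu⟩
  obtain ⟨d, hd⟩ : ∃ d, d = min δ 1 := ⟨_, rfl⟩
  have hd0 : 0 < d := by rw [hd]; positivity
  have hsub : ball (0 : E 3) d ⊆ ball 0 δ := ball_subset_ball (by rw [hd]; exact min_le_left _ _)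
  have hsub1 : ball (0 : E 3) d ⊆ ball 0 1 := ball_subset_ball (by rw [hd]; exact min_le_right _ _)
  set L : E 3 → ℝ := fun x => inner ℝ (Φ x) a with hL
  have hLip : ∀ x ∈ ball (0 : E 3) d, ∀ y ∈ ball (0 : E 3) d, |L x - L y| ≤ 101 / 100 * ‖x - y‖ := by
    intro x hx y hy
    have h1 : L x - L y = inner ℝ (Φ x - Φ y) a := by simp only [hL]; rw [inner_sub_left]
    rw [h1]
    calc |(inner ℝ (Φ x - Φ y) a : ℝ)| ≤ ‖Φ x - Φ y‖ * ‖a‖ := abs_real_inner_le_norm _ _
      _ ≤ 101 / 100 * ‖x - y‖ := by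
          rw [ha, mul_one]; exact (hΦ x (hsub hx) y (hsub hy)).2
  have hLc : ContinuousOn L (ball (0 : E 3) d) := by
    have : LipschitzOnWith (101 / 100) L (ball (0 : E 3) d) := by
      apply LipschitzOnWith.of_dist_le_mul
      intro x hx y hy
      rw [Real.dist_eq, dist_eq_norm]
      have := hLip x hx y hy
      simpa using this
    exact this.continuousOn
  have hJ : IsPreconnected (L '' ball (0 : E 3) d) :=
    (convex_ball (0 : E 3) d).isPreconnected.image L hLc
  have hJo := hJ.ordConnected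
  have hV'0 : ∀ s ∈ L '' ball (0 : E 3) d, HasDerivAt V' 0 s := by
    rintro _ ⟨x, hx, rfl⟩
    have h1 := hV' (L x)
    have h2 : V (L x) = uu x := (hu x (hsub hx)).symm
    rw [h2, h0 _ (hle x (hsub1 hx))] at h1
    exact h1
  have h00 : (0 : E 3) ∈ ball (0 : E 3) d := mem_ball_self hd0
  obtain ⟨α, hα⟩ : ∃ α, α = V' (L 0) := ⟨_, rfl⟩
  -- `V'` is constant on the image
  have key : ∀ s ∈ L '' ball (0 : E 3) d, ∀ t ∈ L '' ball (0 : E 3) d, s ≤ t →
      V' t = V' s ∧ V t - V' s * t = V s - V' s * s := by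
    intro s hs t ht hst
    have hI : Icc s t ⊆ L '' ball (0 : E 3) d := hJo.out hs ht
    have c1 : ∀ x ∈ Icc s t, V' x = V' s := by
      apply constant_of_has_deriv_right_zero
      · exact fun x hx => (hV'0 x (hI hx)).continuousAt.continuousWithinAt
      · exact fun x hx => (hV'0 x (hI ⟨hx.1, hx.2.le⟩)).hasDerivWithinAt
    have c2 : ∀ x ∈ Icc s t, V x - V' s * x = V s - V' s * s := by
      have hd2 : ∀ x ∈ Icc s t, HasDerivAt (fun x => V x - V' s * x) 0 x := by
        intro x hx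
        have := (hV x).sub ((hasDerivAt_id x).const_mul (V' s))
        refine this.congr_deriv ?_
        rw [c1 x hx]; ring
      apply constant_of_has_deriv_right_zero (f := fun x => V x - V' s * x)
      · exact fun x hx => (hd2 x hx).continuousAt.continuousWithinAt
      · exact fun x hx => (hd2 x ⟨hx.1, hx.2.le⟩).hasDerivWithinAt
    exact ⟨c1 t ⟨hst, le_rfl⟩, c2 t ⟨hst, le_rfl⟩⟩
  have haff : ∀ x ∈ ball (0 : E 3) d, uu x = α * (L x - L 0) := by
    intro x hx
    have e1 : V (L x) = uu x := (hu x (hsub hx)).symm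
    have e0 : V (L 0) = 0 := by
      have := (hu 0 (hsub h00)).symm
      rw [uu_zero] at this; exact this
    rcases le_total (L 0) (L x) with h | h
    · have := (key (L 0) ⟨0, h00, rfl⟩ (L x) ⟨x, hx, rfl⟩ h).2
      rw [e1, e0, ← hα] at this
      linarith
    · obtain ⟨k1, k2⟩ := key (L x) ⟨x, hx, rfl⟩ (L 0) ⟨0, h00, rfl⟩ h
      rw [e1, e0, ← k1, ← hα] at k2
      linarith
  have hmem : ∀ (r : ℝ) (i : Fin 3), 0 ≤ r → r < d → r • ax i ∈ ball (0 : E 3) d := by
    intro r i h1 h2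
    rw [mem_ball_zero_iff, norm_smul, norm_ax, mul_one, Real.norm_of_nonneg h1]
    exact h2
  have hα0 : α ≠ 0 := by
    intro h
    have h1 := haff _ (hmem (d / 2) 0 (by linarith) (by linarith))
    rw [h, zero_mul, uu_ax0] at h1
    have : 0 < (17 * (d / 2) ^ 3 + 8 * (d / 2) ^ 5) / 25 := by positivity
    linarith
  have hαp : 0 < |α| := abs_pos.2 hα0
  -- choose a small radius
  obtain ⟨r, hr0, hrd, hr1, hrα⟩ : ∃ r : ℝ, 0 < r ∧ r < d ∧ r ≤ 1 ∧ r ≤ |α| / 100 := by
    refine ⟨min (d / 2) (min 1 (|α| / 100)), by positivity, ?_, ?_, ?_⟩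
    · exact (min_le_left _ _).trans_lt (by linarith)
    · exact (min_le_right _ _).trans (min_le_left _ _)
    · exact (min_le_right _ _).trans (min_le_right _ _)
  have hsmall : ∀ i : Fin 3, |L (r • ax i) - L 0| ≤ r / 100 := by
    intro i
    have h1 := haff _ (hmem r i hr0.le hrd)
    have h2 : |uu (r • ax i)| ≤ |α| * (r / 100) := by
      have h3 : |uu (r • ax i)| ≤ r * r := by
        fin_cases i
        · change |uu (r • ax 0)| ≤ r * r
          rw [uu_ax0, abs_of_nonneg (by positivity)]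
          have e1 : r ^ 3 ≤ r * r := by nlinarith [mul_pos hr0 hr0]
          have e2 : r ^ 5 ≤ r * r := by
            have : r ^ 5 = (r * r) * (r * r * r) := by ring
            rw [this]
            have h5 : r * r * r ≤ 1 := by
              have : r * r ≤ 1 := by nlinarith
              nlinarith
            nlinarith [mul_pos hr0 hr0]
          linarith
        · change |uu (r • ax 1)| ≤ r * r
          rw [uu_ax1, abs_zero]; positivity
        · change |uu (r • ax 2)| ≤ r * r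
          rw [uu_ax2, abs_zero]; positivity
      nlinarith
    rw [h1, abs_mul] at h2
    exact le_of_mul_le_mul_left h2 hαp
  set v : Fin 3 → E 3 := fun i => Φ (r • ax i) - Φ 0 with hv
  have hvn : ∀ i, 99 / 100 * r ≤ ‖v i‖ ∧ ‖v i‖ ≤ 101 / 100 * r := by
    intro i
    have h1 := hΦ _ (hsub (hmem r i hr0.le hrd)) 0 (hsub h00)
    have h2 : ‖r • ax i - 0‖ = r := by
      rw [sub_zero, norm_smul, norm_ax, mul_one, Real.norm_of_nonneg hr0.le]
    rw [h2] at h1
    exact h1
  have hvs : ∀ i j, i ≠ j → |(inner ℝ (v i) (v j) : ℝ)| ≤ 4 / 100 * r ^ 2 := by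
    intro i j hij
    have h1 := hΦ _ (hsub (hmem r i hr0.le hrd)) _ (hsub (hmem r j hr0.le hrd))
    have h2 := norm_ax_sub_sq r i j hij
    have h3 : v i - v j = Φ (r • ax i) - Φ (r • ax j) := by simp only [hv]; abel
    rw [← h3] at h1
    have h4 : ‖v i - v j‖ ^ 2 = ‖v i‖ ^ 2 - 2 * inner ℝ (v i) (v j) + ‖v j‖ ^ 2 :=
      @norm_sub_sq ℝ _ _ _ _ _ _
    set n := ‖r • ax i - r • ax j‖ with hn
    have hn0 : 0 ≤ n := norm_nonneg _
    have q1 : (99 / 100) ^ 2 * (2 * r ^ 2) ≤ ‖v i - v j‖ ^ 2 := by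
      rw [← h2, ← mul_pow]; exact pow_le_pow_left₀ (by positivity) h1.1 2
    have q2 : ‖v i - v j‖ ^ 2 ≤ (101 / 100) ^ 2 * (2 * r ^ 2) := by
      rw [← h2, ← mul_pow]; exact pow_le_pow_left₀ (norm_nonneg _) h1.2 2
    have q3 : ∀ k, (99 / 100) ^ 2 * r ^ 2 ≤ ‖v k‖ ^ 2 := fun k => by
      rw [← mul_pow]; exact pow_le_pow_left₀ (by positivity) (hvn k).1 2
    have q4 : ∀ k, ‖v k‖ ^ 2 ≤ (101 / 100) ^ 2 * r ^ 2 := fun k => by
      rw [← mul_pow]; exact pow_le_pow_left₀ (norm_nonneg _) (hvn k).2 2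
    have a1 := q3 i
    have a2 := q3 j
    have a3 := q4 i
    have a4 := q4 j
    rw [abs_le]
    constructor <;> nlinarith
  have hva : ∀ i, |(inner ℝ (v i) (r • a) : ℝ)| ≤ 4 / 100 * r ^ 2 := by
    intro i
    have h1 : (inner ℝ (v i) a : ℝ) = L (r • ax i) - L 0 := by
      simp only [hv, hL]; rw [inner_sub_left]
    rw [real_inner_smul_right, h1, abs_mul, abs_of_pos hr0]
    have := hsmall i
    nlinarith
  have hra : ‖r • a‖ ^ 2 = r ^ 2 := by
    rw [norm_smul, ha, mul_one, Real.norm_of_nonneg hr0.le]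
  apply no_four ![v 0, v 1, v 2, r • a] r hr0
  · have q3 : ∀ k, (99 / 100) ^ 2 * r ^ 2 ≤ ‖v k‖ ^ 2 := fun k => by
      rw [← mul_pow]; exact pow_le_pow_left₀ (by positivity) (hvn k).1 2
    have hr2 : 0 < r ^ 2 := by positivity
    intro i
    fin_cases i
    · have := q3 0; change _ ≤ ‖v 0‖ ^ 2; nlinarith
    · have := q3 1; change _ ≤ ‖v 1‖ ^ 2; nlinarith
    · have := q3 2; change _ ≤ ‖v 2‖ ^ 2; nlinarith
    · change _ ≤ ‖r • a‖ ^ 2; rw [hra]; nlinarith
  · intro i j hij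
    fin_cases i <;> fin_cases j
    · exact absurd rfl hij
    · exact hvs 0 1 (by decide)
    · exact hvs 0 2 (by decide)
    · exact hva 0
    · exact hvs 1 0 (by decide)
    · exact absurd rfl hij
    · exact hvs 1 2 (by decide)
    · exact hva 1
    · exact hvs 2 0 (by decide)
    · exact hvs 2 1 (by decide)
    · exact absurd rfl hij
    · exact hva 2
    · rw [real_inner_comm]; exact hva 0
    · rw [real_inner_comm]; exact hva 1
    · rw [real_inner_comm]; exact hva 2
    · exact absurd rfl hij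

end Pool.Agent.R525.LR
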