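import Pool.Agent.R525.LR.Defs

/-!
# A one-dimensional solution that is the identity on `(-∞, 1]`
-/

set_option autoImplicit false

open Set Metric Filter Topology MeasureTheory
open scoped ContDiff

namespace Pool.Agent.R525.LR

theorem exists_oneDim {f : ℝ → ℝ} (hf : Admissible f) (h0 : ∀ t ≤ 1, f t = 0) :
    ∃ V : ℝ → ℝ, IsOneDim f V ∧ ∀ s ≤ 1, V s = s := by
  obtain ⟨hc, hs, hnn⟩ := hf
  have hcont : Continuous f := hc.continuous
  set F : ℝ → ℝ := fun v => ∫ t in (0 : ℝ)..v, f t with hF
  have hFd : ∀ v, HasDerivAt F (f v) v := fun v =>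
    intervalIntegral.integral_hasDerivAt_right (hcont.intervalIntegrable _ _)
      hcont.aestronglyMeasurable.stronglyMeasurableAtFilter hcont.continuousAt
  have hF1 : ∀ v ≤ 1, F v = 0 := by
    intro v hv
    simp only [hF]
    rw [intervalIntegral.integral_congr (g := fun _ => (0 : ℝ))]
    · simp
    · intro t ht
      apply h0
      rcases le_total 0 v with h | h
      · rw [uIcc_of_le h] at ht; exact ht.2.trans hv
      · rw [uIcc_of_ge h] at ht; linarith [ht.2]
  have hint : Integrable f := hcont.integrable_of_hasCompactSupport hs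
  have hFnn : ∀ v, 0 ≤ F v := by
    intro v
    rcases le_total v 1 with h | h
    · rw [hF1 v h]
    · exact intervalIntegral.integral_nonneg (by linarith) fun t _ => hnn t
  set M := ∫ t, f t with hM
  have hFM : ∀ v, F v ≤ M := by
    intro v
    rcases le_total v 1 with h | h
    · rw [hF1 v h]; exact integral_nonneg hnn
    · simp only [hF]
      rw [intervalIntegral.integral_of_le (by linarith)]
      exact setIntegral_le_integral hint (Eventually.of_forall hnn)
  have hMnn : 0 ≤ M := integral_nonneg hnn
  set W : ℝ → ℝ := fun v => √(1 + 2 * F v) with hW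
  have hWpos : ∀ v, 0 < W v := fun v => Real.sqrt_pos.2 (by linarith [hFnn v])
  have hWd : ∀ v, HasDerivAt W (f v / W v) v := by
    intro v
    have h1 : HasDerivAt (fun v => 1 + 2 * F v) (2 * f v) v :=
      ((hFd v).const_mul 2).const_add 1
    have h2 := h1.sqrt (by linarith [hFnn v])
    refine h2.congr_deriv ?_
    rw [mul_div_mul_left _ _ (by norm_num : (2 : ℝ) ≠ 0)]
  have hWc : Continuous W := continuous_iff_continuousAt.2 fun v => (hWd v).continuousAt
  have hWi : Continuous fun v => (W v)⁻¹ := hWc.inv₀ fun v => (hWpos v).ne'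
  set σ : ℝ → ℝ := fun v => ∫ t in (0 : ℝ)..v, (W t)⁻¹ with hσ
  have hσd : ∀ v, HasDerivAt σ (W v)⁻¹ v := fun v =>
    intervalIntegral.integral_hasDerivAt_right (hWi.intervalIntegrable _ _)
      hWi.aestronglyMeasurable.stronglyMeasurableAtFilter hWi.continuousAt
  have hσ1 : ∀ v ≤ 1, σ v = v := by
    intro v hv
    simp only [hσ]
    rw [intervalIntegral.integral_congr (g := fun _ => (1 : ℝ))]
    · simp
    · intro t ht
      have ht1 : t ≤ 1 := by
        rcases le_total 0 v with h | h
        · rw [uIcc_of_le h] at ht; exact ht.2.trans hv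
        · rw [uIcc_of_ge h] at ht; linarith [ht.2]
      simp only [hW]
      rw [hF1 t ht1]; simp
  have hσmono : StrictMono σ := by
    apply strictMono_of_deriv_pos
    intro v
    rw [(hσd v).deriv]
    exact inv_pos.2 (hWpos v)
  have hσc : Continuous σ := continuous_iff_continuousAt.2 fun v => (hσd v).continuousAt
  set c := √(1 + 2 * M) with hcdef
  have hcpos : 0 < c := Real.sqrt_pos.2 (by linarith)
  have hWle : ∀ v, W v ≤ c := fun v => Real.sqrt_le_sqrt (by linarith [hFM v])
  have hσge : ∀ v, 0 ≤ v → c⁻¹ * v ≤ σ v := by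
    intro v hv
    have h1 : ∫ t in (0 : ℝ)..v, c⁻¹ = c⁻¹ * v := by simp; ring
    rw [← h1]
    apply intervalIntegral.integral_mono_on hv (by simp) (hWi.intervalIntegrable _ _)
    intro t _
    exact inv_anti₀ (hWpos t) (hWle t)
  have hsurj : Function.Surjective σ := by
    apply hσc.surjective
    · apply tendsto_atTop_mono' (f₁ := fun v => c⁻¹ * v)
      · filter_upwards [eventually_ge_atTop 0] with v hv
        exact hσge v hv
      · exact tendsto_id.const_mul_atTop (inv_pos.2 hcpos)
    · apply tendsto_id.congr'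
      filter_upwards [eventually_le_atBot 1] with v hv
      exact (hσ1 v hv).symm
  set e := hσmono.orderIsoOfSurjective σ hsurj with he
  have hes : ∀ s, σ (e.symm s) = s := fun s => e.apply_symm_apply s
  have hes' : ∀ v, e.symm (σ v) = v := fun v => e.symm_apply_apply v
  have hVd : ∀ s, HasDerivAt (fun s => e.symm s) (W (e.symm s)) s := by
    intro s
    have h1 := HasDerivAt.of_local_left_inverse (f := σ) (g := fun s => e.symm s)
      (a := s) e.symm.continuous.continuousAt (hσd (e.symm s))
      (inv_ne_zero (hWpos _).ne') (Eventually.of_forall hes)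
    rwa [inv_inv] at h1
  refine ⟨fun s => e.symm s, ⟨fun s => W (e.symm s), hVd, fun s => ?_⟩, fun s hs1 => ?_⟩
  · have h1 := (hWd (e.symm s)).comp s (hVd s)
    refine h1.congr_deriv ?_
    exact div_mul_cancel₀ _ (hWpos _).ne'
  · have h1 := hes' s
    rw [hσ1 s hs1] at h1
    exact h1

end Pool.Agent.R525.LR
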